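import Pool.Agent.W909.PSpaceInter

/-!
# Relative to a random oracle, hard sets for `PSPACE` are hard under one-one reductions
-/

namespace Pool.Agent.W909

open MeasureTheory Pool.Agent.NPC Pool.Agent.H628R3.RO Pool.Agent.H673R2.OneOne

/-- the theorem for general classes, closed under preprocessing with a projection -/
theorem general' {A : Oracle} (hA : ∀ M : Alg, Good A M) (C : Set (List Bool) → Prop)
    (hI : ∀ L L', C L → IsNP A L' → C (L' ∩ L))
    (hU : ∀ L L', C L → IsNP A L' → C (L ∪ L'))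
    (hR : ∀ L, C L → C {z | (unpair z).1 ∈ L})
    {B : Set (List Bool)} (hB : ∀ L, C L → Red A L B) {L : Set (List Bool)} (hL : C L) :
    Red1 A L B := by
  have h3 : C (DL A {z | (unpair z).1 ∈ L}) :=
    hU _ _ (hI _ _ (hR _ (hR _ hL)) (isNP_RG A 0)) (isNP_RG A 1)
  obtain ⟨F, ⟨M, hM⟩, hF⟩ := hB _ h3
  obtain ⟨n0, h4, h5, h6⟩ := patch (hA M) hM hF
  exact ⟨_, isFP_patched M ⟨M, hM⟩ n0, h6, h5, h4⟩

/-- `NP` in the sense of one library is `NP` in the sense of the other -/
theorem isNP_gauge {A : Oracle} {L : Set (List Bool)} (h : IsNP A L) :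
    Pool.Agent.H620R2.Gauge.IsNP A L := by
  obtain ⟨V, p, hV, hL⟩ := h
  have h1 : Poly (fun z : List Bool => pairBits (unpair z).2 (unpair z).1) :=
    H622R2.poly_pairBits (Poly.snd poly_unpair) (Poly.fst poly_unpair)
  refine ⟨fun z => V (pairBits (unpair z).2 (unpair z).1), p, ?_, fun x => ?_⟩
  · exact Pool.Agent.H943R5.GC.U6.isFP_ofRO (IsFP.comp hV (IsFP.of_poly h1))
  · rw [hL]
    simp only [unpair_pairBits]

theorem pspace_case {A : Oracle} (hA : ∀ M : Alg, Good A M) {B : Set (List Bool)}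
    (hB : ∀ L, Pool.Agent.H620R2.Gauge.IsPSPACE A L → Red A L B) {L : Set (List Bool)}
    (hL : Pool.Agent.H620R2.Gauge.IsPSPACE A L) : Red1 A L B :=
  general' hA (Pool.Agent.H620R2.Gauge.IsPSPACE A)
    (fun _ _ h h' => IsPSPACE.inter (isNP_gauge h').isPSPACE h)
    (fun _ _ h h' => IsPSPACE.union h (isNP_gauge h').isPSPACE)
    (fun _ h => h.precomp (Poly.fst poly_unpair)) hB hL

end Pool.Agent.W909
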