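import Pool.Agent.H620R2.Gauge2.Trans
import Pool.Agent.H943R5.GC.U6
import Pool.Agent.H673R2.OneOne.Gen

/-!
# Polynomial space relative to an oracle is closed under intersections and unions
-/

namespace Pool.Agent.W909

open Pool.Agent.NPC Pool.Agent.H622R2 Pool.Agent.H620R2.Gauge

/-- the phase -/
def ph (s : List Bool) : Bool := s.head?.getD false

/-- the next action of the algorithm for the intersection -/
def iAct (a1 a2 : List Bool → List Bool) (y : List Bool) : List Bool :=
  if ph (unpair y).2 = true then a2 (pairBits (unpair y).1 (unpair y).2.tail)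
  else if (a1 (pairBits (unpair y).1 (unpair y).2.tail)).head? = some true then
    (if (a1 (pairBits (unpair y).1 (unpair y).2.tail)).tail = [true] then [false] else [true])
  else a1 (pairBits (unpair y).1 (unpair y).2.tail)

/-- the next memory of the algorithm for the intersection; the memory is given as `b :: s` -/
def iNext (a1 n1 n2 : List Bool → List Bool) (y : List Bool) : List Bool :=
  if ph (unpair y).2.tail = true then
    true :: n2 (pairBits (unpair y).1 (((unpair y).2.head?.getD false) :: (unpair y).2.tail.tail))
  else if (a1 (pairBits (unpair y).1 (unpair y).2.tail.tail)).head? = some true then [true]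
  else false :: n1 (pairBits (unpair y).1
    (((unpair y).2.head?.getD false) :: (unpair y).2.tail.tail))

theorem poly_getD {α : Type} [TEnc α] {f : α → List Bool} (hf : Poly f) :
    Poly (fun a => (f a).head?.getD false) := by
  refine (NPC.Poly.optCases (o := fun a => (f a).head?) (g := fun _ => false)
    (h := fun _ b => b) (Poly.head? hf) (NPC.Poly.const _) (Poly.snd Poly.id)).congr fun a => ?_
  cases (f a).head? <;> rfl

theorem poly_iAct {a1 a2 : List Bool → List Bool} (h1 : Poly a1) (h2 : Poly a2) :
    Poly (iAct a1 a2) := by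
  unfold iAct ph
  have hx : Poly (fun z : List Bool => (unpair z).1) := Poly.fst poly_unpair
  have hs : Poly (fun z : List Bool => (unpair z).2) := Poly.snd poly_unpair
  have hp : Poly (fun z : List Bool => pairBits (unpair z).1 (unpair z).2.tail) :=
    poly_pairBits hx (Poly.tail hs)
  exact Poly.ite (Poly.decide_eq (poly_getD hs) (NPC.Poly.const _)) (h2.comp hp)
    (Poly.ite (Poly.decide_eq (Poly.head? (h1.comp hp)) (NPC.Poly.const _))
      (Poly.ite (Poly.decide_eq (Poly.tail (h1.comp hp)) (NPC.Poly.const _))
        (NPC.Poly.const _) (NPC.Poly.const _)) (h1.comp hp))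

theorem poly_iNext {a1 n1 n2 : List Bool → List Bool} (h1 : Poly a1) (h2 : Poly n1)
    (h3 : Poly n2) : Poly (iNext a1 n1 n2) := by
  unfold iNext ph
  have hx : Poly (fun z : List Bool => (unpair z).1) := Poly.fst poly_unpair
  have hs : Poly (fun z : List Bool => (unpair z).2) := Poly.snd poly_unpair
  have hp : Poly (fun z : List Bool => pairBits (unpair z).1 (unpair z).2.tail.tail) :=
    poly_pairBits hx (Poly.tail (Poly.tail hs))
  have hq : Poly (fun z : List Bool => pairBits (unpair z).1
      (((unpair z).2.head?.getD false) :: (unpair z).2.tail.tail)) :=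
    poly_pairBits hx (Poly.cons (poly_getD hs) (Poly.tail (Poly.tail hs)))
  exact Poly.ite (Poly.decide_eq (poly_getD (Poly.tail hs)) (NPC.Poly.const _))
    (Poly.cons (NPC.Poly.const _) (h3.comp hq))
    (Poly.ite (Poly.decide_eq (Poly.head? (h1.comp hp)) (NPC.Poly.const _)) (NPC.Poly.const _)
      (Poly.cons (NPC.Poly.const _) (h2.comp hq)))

/-- the algorithm for the intersection -/
noncomputable def iAlg (M N : SAlg) : SAlg where
  act := iAct M.act N.act
  act_poly := polyTime_of_poly_list
    (poly_iAct (poly_of_polyTime M.act_poly) (poly_of_polyTime N.act_poly))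
  next := iNext M.act M.next N.next
  next_poly := polyTime_of_poly_list
    (poly_iNext (poly_of_polyTime M.act_poly) (poly_of_polyTime M.next_poly)
      (poly_of_polyTime N.next_poly))

theorem act_two (M N : SAlg) (x t : List Bool) :
    (iAlg M N).act (pairBits x (true :: t)) = N.act (pairBits x t) := by
  show iAct M.act N.act _ = _
  simp [iAct, ph, unpair_pairBits]

theorem act_one (M N : SAlg) (x s : List Bool) (hs : ph s = false) :
    (iAlg M N).act (pairBits x s) = if (M.act (pairBits x s.tail)).head? = some true then
      (if (M.act (pairBits x s.tail)).tail = [true] then [false] else [true])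
      else M.act (pairBits x s.tail) := by
  show iAct M.act N.act _ = _
  simp [iAct, unpair_pairBits, hs]

theorem next_two (M N : SAlg) (x t : List Bool) (b : Bool) :
    (iAlg M N).next (pairBits x (b :: true :: t)) = true :: N.next (pairBits x (b :: t)) := by
  show iNext M.act M.next N.next _ = _
  simp [iNext, ph, unpair_pairBits]

theorem next_one (M N : SAlg) (x s : List Bool) (b : Bool) (hs : ph s = false) :
    (iAlg M N).next (pairBits x (b :: s)) =
      if (M.act (pairBits x s.tail)).head? = some true then [true]
      else false :: M.next (pairBits x (b :: s.tail)) := by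
  show iNext M.act M.next N.next _ = _
  simp [iNext, unpair_pairBits, hs]

theorem reach_iAlg {M N : SAlg} {A : Oracle} {x s : List Bool} (h : (iAlg M N).Reach A x s) :
    (ph s = false ∧ M.Reach A x s.tail ∧ s.length ≤ s.tail.length + 1) ∨
      ∃ t, s = true :: t ∧ N.Reach A x t := by
  induction h with
  | start => exact Or.inl ⟨rfl, SAlg.Reach.start, by simp⟩
  | @step s q h1 h2 ih =>
    rcases ih with ⟨h3, h4, h5⟩ | ⟨t, rfl, h4⟩
    · rw [act_one M N x s h3] at h2
      rw [next_one M N x s _ h3]
      split_ifs at h2 ⊢ with h6 h7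
      · exact Or.inr ⟨[], rfl, SAlg.Reach.start⟩
      · exact Or.inr ⟨[], rfl, SAlg.Reach.start⟩
      · refine Or.inl ⟨rfl, ?_, by simp⟩
        exact SAlg.Reach.step h4 h2
    · rw [act_two] at h2
      rw [next_two]
      exact Or.inr ⟨_, rfl, SAlg.Reach.step h4 h2⟩

theorem reach_one {M N : SAlg} {A : Oracle} {x s : List Bool} (h : M.Reach A x s) :
    ∃ s', ph s' = false ∧ s'.tail = s ∧ (iAlg M N).Reach A x s' := by
  induction h with
  | start => exact ⟨[], rfl, rfl, SAlg.Reach.start⟩
  | @step s q h1 h2 ih =>
    obtain ⟨s', h3, h4, h5⟩ := ih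
    subst h4
    have h6 : (iAlg M N).act (pairBits x s') = false :: q := by
      rw [act_one M N x s' h3, h2]
      simp
    refine ⟨_, ?_, ?_, SAlg.Reach.step h5 h6⟩
    · rw [next_one M N x s' _ h3, h2]
      simp [ph]
    · rw [next_one M N x s' _ h3, h2]
      simp

theorem reach_two {M N : SAlg} {A : Oracle} {x s : List Bool} (h0 : (iAlg M N).Reach A x [true])
    (h : N.Reach A x s) : (iAlg M N).Reach A x (true :: s) := by
  induction h with
  | start => exact h0
  | @step s q h1 h2 ih =>
    rw [← next_two M N]
    exact SAlg.Reach.step ih (by rw [act_two]; exact h2)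

theorem IsPSPACE.inter {A : Oracle} {L L' : Set (List Bool)} (h : IsPSPACE A L)
    (h' : IsPSPACE A L') : IsPSPACE A (L ∩ L') := by
  obtain ⟨M, p, hM⟩ := h
  obtain ⟨N, q, hN⟩ := h'
  refine ⟨iAlg M N, p + q + 1, fun x => ⟨?_, ?_⟩⟩
  · intro s hs
    rw [Polynomial.eval_add, Polynomial.eval_add, Polynomial.eval_one]
    rcases reach_iAlg hs with ⟨-, h1, h2⟩ | ⟨t, rfl, h1⟩
    · have := (hM x).1 _ h1
      omega
    · have := (hN x).1 _ h1
      rw [List.length_cons]
      omega
  · obtain ⟨s, z, h1, h2, h3⟩ := (hM x).2
    obtain ⟨s', h4, rfl, h5⟩ := reach_one (N := N) h1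
    by_cases hz : z = [true]
    · subst hz
      have h6 : (iAlg M N).act (pairBits x s') = false :: [] := by
        rw [act_one M N x s' h4, h2]
        simp
      have h7 := SAlg.Reach.step h5 h6
      rw [next_one M N x s' _ h4, h2] at h7
      simp only [List.head?_cons, if_true] at h7
      obtain ⟨t, z', h8, h9, h10⟩ := (hN x).2
      refine ⟨true :: t, z', reach_two h7 h8, by rw [act_two]; exact h9, ?_⟩
      rw [Set.mem_inter_iff, h3, h10]
      simp
    · refine ⟨s', [], h5, ?_, ?_⟩
      · rw [act_one M N x s' h4, h2]
        simp [hz]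
      · rw [Set.mem_inter_iff, h3]
        simp [hz]

theorem IsPSPACE.union {A : Oracle} {L L' : Set (List Bool)} (h : IsPSPACE A L)
    (h' : IsPSPACE A L') : IsPSPACE A (L ∪ L') := by
  have h1 := (IsPSPACE.inter h.compl h'.compl).compl
  rwa [← Set.compl_union, compl_compl] at h1

end Pool.Agent.W909
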